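import Mathlib
import Pool.Agent.Y978.MG.Defs
import Pool.Agent.Y978.MG.KSL

set_option autoImplicit false

open MeasureTheory Filter Pool.Agent.Y978.MG
open scoped Topology

/-- There is a stationary, irreducible, aperiodic, positive recurrent Markov chain `M` on two
states with exponential return times (its entropy is the logarithm of the golden ratio) such that
no i.i.d. process `Y`, on any standard Borel space `T`, of the same Kolmogorov-Sinai entropy
admits a finitary factor map onto `M` whose coding window `R` satisfies `P (R > r) ≤ g r` with
`√r * g r → 0`. In particular there is none with exponential tails, `g r = C * exp (-c * r)`, and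
none with `E √R < ∞`. -/
theorem Pool.Agent.Results.MP_207c40_pr.EntropyObstruction.result :
    ∃ μ : Measure (ℤ → Bool), IsErgodicMarkov μ ∧ HasExpReturnTimes μ ∧
      ksEntropy μ shift = ENNReal.ofReal (Real.log Real.goldenRatio) ∧
      ∀ (T : Type) [MeasurableSpace T] [StandardBorelSpace T] (τ : Measure T)
        [IsProbabilityMeasure τ],
        ksEntropy (Measure.infinitePi fun _ : ℤ => τ) shift = ksEntropy μ shift →
        ∀ g : ℕ → ℝ, Tendsto (fun r : ℕ => √(r : ℝ) * g r) atTop (𝓝 0) →
        ∀ φ : (ℤ → T) → (ℤ → Bool),
          ¬ IsFinitaryFactor (Measure.infinitePi fun _ : ℤ => τ) μ φ g :=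
  Pool.Agent.Y978.MG.final
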